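import Pool.Agent.W2helper75.FD.Stm3

/-!
Project FD part 3 (helper75), piece DBL: doubling by the pigeonhole principle.
-/

set_option autoImplicit false

namespace Pool.Agent.W2helper46.FD

open Pool.Agent.W2helper75.FD

lemma EE_finite {m : ℕ} (lam : Fin m → ℂ) (ρ : ℕ) (R : ℝ) : (EE lam ρ R).Finite := by
  have hfin : {f : Fin m → ℤ | ∀ i, f i ∈ Set.Icc (-(ρ : ℤ)) ρ}.Finite :=
    Set.Finite.pi' fun _ => Set.finite_Icc _ _
  refine (hfin.image fun a => ∑ i, (a i : ℂ) * lam i).subset ?_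
  rintro z ⟨-, a, ha, rfl⟩
  exact ⟨a, fun i => abs_le.1 (ha i), rfl⟩

lemma floor_close {x y c : ℝ} (hc : 0 < c) (h : ⌊x / c⌋ = ⌊y / c⌋) : |x - y| < c := by
  have h1 := Int.floor_le (x / c)
  have h2 := Int.lt_floor_add_one (x / c)
  have h3 := Int.floor_le (y / c)
  have h4 := Int.lt_floor_add_one (y / c)
  rw [h] at h1 h2
  have h5 : |x / c - y / c| < 1 := by rw [abs_lt]; constructor <;> linarith
  rw [← sub_div, abs_div, abs_of_pos hc, div_lt_one hc] at h5
  exact h5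

lemma floor_mem {x R : ℝ} (hR : 0 < R) (h : |x| ≤ R) :
    ⌊x / (R / 4)⌋ ∈ Finset.Icc (-4 : ℤ) 4 := by
  have h4 : 0 < R / 4 := by positivity
  rw [abs_le] at h
  rw [Finset.mem_Icc]
  constructor
  · rw [Int.le_floor, le_div_iff₀ h4]
    push_cast
    linarith
  · have : ⌊x / (R / 4)⌋ < 5 := by
      rw [Int.floor_lt, div_lt_iff₀ h4]
      push_cast
      linarith
    omega

lemma ediv_mem {a : ℤ} {ρ : ℕ} (hρ : 1 ≤ ρ) (h : |a| ≤ ((2 * ρ : ℕ) : ℤ)) :
    a / (ρ : ℤ) ∈ Finset.Icc (-2 : ℤ) 2 := by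
  have hp : (0 : ℤ) < ρ := by exact_mod_cast hρ
  rw [abs_le] at h
  push_cast at h
  rw [Finset.mem_Icc]
  constructor
  · rw [Int.le_ediv_iff_mul_le hp]
    linarith
  · have : a / (ρ : ℤ) < 3 := by
      rw [Int.ediv_lt_iff_lt_mul hp]
      linarith
    omega

lemma ediv_close {a b : ℤ} {ρ : ℕ} (hρ : 1 ≤ ρ) (h : a / (ρ : ℤ) = b / (ρ : ℤ)) :
    |a - b| ≤ (ρ : ℤ) := by
  have hp : (0 : ℤ) < ρ := by exact_mod_cast hρ
  have h1 := Int.emod_add_mul_ediv a ρ
  have h2 := Int.emod_add_mul_ediv b ρ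
  have h3 := Int.emod_nonneg a hp.ne'
  have h4 := Int.emod_nonneg b hp.ne'
  have h5 := Int.emod_lt_of_pos a hp
  have h6 := Int.emod_lt_of_pos b hp
  rw [h] at h1
  rw [abs_le]
  constructor <;> linarith

theorem p_dbl : P_DBL := by
  intro m lam R hR
  classical
  refine ⟨9 * (9 * 5 ^ m), fun ρ hρ => ⟨EE_finite _ _ _, ?_⟩⟩
  have hfin := EE_finite lam (2 * ρ) R
  have hfin2 := EE_finite lam ρ (R / 2)
  have hR4 : 0 < R / 4 := by positivity
  have hc : ∀ z : ℂ, ∃ a : Fin m → ℤ, z ∈ EE lam (2 * ρ) R →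
      (∀ i, |a i| ≤ ((2 * ρ : ℕ) : ℤ)) ∧ z = ∑ i, (a i : ℂ) * lam i := by
    intro z
    by_cases hz : z ∈ EE lam (2 * ρ) R
    · obtain ⟨-, a, ha⟩ := hz
      exact ⟨a, fun _ => ha⟩
    · exact ⟨0, fun h => absurd h hz⟩
  choose a ha using hc
  set s := hfin.toFinset with hs
  let κ : ℂ → ℤ × (ℤ × (Fin m → ℤ)) :=
    fun z => (⌊z.re / (R / 4)⌋, ⌊z.im / (R / 4)⌋, fun i => a z i / (ρ : ℤ))
  have hmem : ∀ z ∈ s, z ∈ EE lam (2 * ρ) R := fun z hz => hfin.mem_toFinset.1 hz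
  have h1 : s.card ≤ (EE lam ρ (R / 2)).ncard * (s.image κ).card := by
    refine Finset.card_le_mul_card_image s _ fun c hc => ?_
    obtain ⟨z0, hz0, hk0⟩ := Finset.mem_image.1 hc
    rw [Set.ncard_eq_toFinset_card _ hfin2]
    refine Finset.card_le_card_of_injOn (fun z => z - z0) ?_ ?_
    · intro z hz
      have hz' := Finset.mem_filter.1 (Finset.mem_coe.1 hz)
      have hk : κ z = κ z0 := hz'.2.trans hk0.symm
      simp only [κ, Prod.mk.injEq] at hk
      obtain ⟨k1, k2, k3⟩ := hk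
      rw [Finset.mem_coe, hfin2.mem_toFinset]
      refine ⟨?_, fun i => a z i - a z0 i, fun i => ediv_close hρ (congrFun k3 i), ?_⟩
      · have e1 := floor_close hR4 k1
        have e2 := floor_close hR4 k2
        have e3 := Complex.norm_le_abs_re_add_abs_im (z - z0)
        rw [Complex.sub_re, Complex.sub_im] at e3
        linarith
      · have f1 := (ha z (hmem z hz'.1)).2
        have f2 := (ha z0 (hmem z0 hz0)).2
        calc z - z0 = (∑ i, (a z i : ℂ) * lam i) - ∑ i, (a z0 i : ℂ) * lam i := by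
              rw [← f1, ← f2]
          _ = ∑ i, ((a z i - a z0 i : ℤ) : ℂ) * lam i := by
              rw [← Finset.sum_sub_distrib]
              refine Finset.sum_congr rfl fun i _ => ?_
              push_cast
              ring
    · intro z _ z' _ h
      exact sub_left_injective h
  have h2 : (s.image κ).card ≤ 9 * (9 * 5 ^ m) := by
    have hsub : s.image κ ⊆ Finset.Icc (-4 : ℤ) 4 ×ˢ (Finset.Icc (-4 : ℤ) 4 ×ˢ
        Fintype.piFinset fun _ : Fin m => Finset.Icc (-2 : ℤ) 2) := by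
      intro c hc
      obtain ⟨z, hz, rfl⟩ := Finset.mem_image.1 hc
      have hzE := hmem z hz
      have hn : ‖z‖ ≤ R := hzE.1
      simp only [κ, Finset.mem_product, Fintype.mem_piFinset]
      exact ⟨floor_mem hR ((Complex.abs_re_le_norm z).trans hn),
        floor_mem hR ((Complex.abs_im_le_norm z).trans hn),
        fun i => ediv_mem hρ ((ha z hzE).1 i)⟩
    refine (Finset.card_le_card hsub).trans ?_
    rw [Finset.card_product, Finset.card_product, Fintype.card_piFinset]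
    simp
  rw [Set.ncard_eq_toFinset_card _ hfin]
  calc s.card ≤ (EE lam ρ (R / 2)).ncard * (s.image κ).card := h1
    _ ≤ (EE lam ρ (R / 2)).ncard * (9 * (9 * 5 ^ m)) := Nat.mul_le_mul_left _ h2
    _ = _ := Nat.mul_comm _ _

end Pool.Agent.W2helper46.FD
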