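import Pool.Agent.W2helper75.FD.Stm3

/-!
Project FD part 3 (helper75), piece EXT: a system on a subgroup of finite index extends.
-/

set_option autoImplicit false

namespace Pool.Agent.W2helper46.FD

open Pool.Agent.W2helper75.FD

open Classical in
/-- representative of the right coset `H g`, equal to `1` for `H` itself -/
noncomputable def rp {Γ : Type} [Group Γ] (H : Subgroup Γ) (g : Γ) : Γ :=
  if g ∈ H then 1 else (Quotient.mk (QuotientGroup.rightRel H) g).out

lemma rp_mem {Γ : Type} [Group Γ] (H : Subgroup Γ) (g : Γ) : g * (rp H g)⁻¹ ∈ H := by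
  unfold rp
  split_ifs with h
  · simpa using h
  · have h1 : (QuotientGroup.rightRel H) (Quotient.mk (QuotientGroup.rightRel H) g).out g :=
      Quotient.exact (Quotient.out_eq (Quotient.mk (QuotientGroup.rightRel H) g))
    exact QuotientGroup.rightRel_apply.1 h1

lemma rp_of_mem {Γ : Type} [Group Γ] {H : Subgroup Γ} {g : Γ} (h : g ∈ H) : rp H g = 1 := if_pos h

lemma rp_mul {Γ : Type} [Group Γ] {H : Subgroup Γ} {x : Γ} (hx : x ∈ H) (g : Γ) :
    rp H (x * g) = rp H g := by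
  unfold rp
  have h1 : (x * g ∈ H) ↔ g ∈ H := H.mul_mem_cancel_left hx
  have h2 : Quotient.mk (QuotientGroup.rightRel H) (x * g) =
      Quotient.mk (QuotientGroup.rightRel H) g := by
    refine Quotient.sound (QuotientGroup.rightRel_apply.2 ?_)
    have : g * (x * g)⁻¹ = x⁻¹ := by group
    rw [this]
    exact H.inv_mem hx
  by_cases hg : g ∈ H
  · rw [if_pos (h1.2 hg), if_pos hg]
  · rw [if_neg (fun h => hg (h1.1 h)), if_neg hg, h2]

lemma rp_range {Γ : Type} [Group Γ] {H : Subgroup Γ} (hH : H.FiniteIndex) :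
    (Set.range (rp H)).Finite := by
  classical
  have : Finite (Γ ⧸ H) := Subgroup.finite_quotient_of_finiteIndex
  have : Finite (Quotient (QuotientGroup.rightRel H)) :=
    Finite.of_equiv _ (QuotientGroup.quotientRightRelEquivQuotientLeftRel H).symm
  refine ((Set.finite_singleton (1 : Γ)).union
    (Set.finite_range (Quotient.out : Quotient (QuotientGroup.rightRel H) → Γ))).subset ?_
  rintro _ ⟨g, rfl⟩
  unfold rp
  split_ifs
  · exact Or.inl rfl
  · exact Or.inr ⟨_, rfl⟩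

/-- the element of `H` -/
noncomputable def rh {Γ : Type} [Group Γ] (H : Subgroup Γ) (g : Γ) : Γ := g * (rp H g)⁻¹

lemma rh_mem {Γ : Type} [Group Γ] (H : Subgroup Γ) (g : Γ) : rh H g ∈ H := rp_mem H g

lemma rh_of_mem {Γ : Type} [Group Γ] {H : Subgroup Γ} {g : Γ} (h : g ∈ H) : rh H g = g := by
  unfold rh
  rw [rp_of_mem h]
  group

lemma rh_mul {Γ : Type} [Group Γ] {H : Subgroup Γ} {x : Γ} (hx : x ∈ H) (g : Γ) :
    rh H (x * g) = x * rh H g := by
  unfold rh
  rw [rp_mul hx, mul_assoc]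

theorem p_ext : P_EXT := by
  intro Γ _ S H h b θ t hfin hsym hgen hL
  classical
  -- the finite set of increments
  set T : Set Γ := (fun q : (Γ × Γ) × Γ => q.1.1 * q.2 * q.1.2⁻¹) ''
    ((Set.range (rp H) ×ˢ Set.range (rp H)) ×ˢ (S : Set Γ)) with hT
  have hTfin : T.Finite :=
    (((rp_range hfin).prod (rp_range hfin)).prod S.finite_toSet).image _
  obtain ⟨B, hB⟩ := (hTfin.image fun σ => max (|(h σ : ℝ)|) (b σ)).bddAbove
  have hinc : ∀ g, ∀ s ∈ S, (rh H g)⁻¹ * rh H (g * s) ∈ T := by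
    intro g s hs
    refine ⟨((rp H g, rp H (g * s)), s), ⟨⟨⟨g, rfl⟩, ⟨g * s, rfl⟩⟩, hs⟩, ?_⟩
    unfold rh
    simp only
    group
  set D : ℕ := ⌈B⌉₊ + 1 with hD
  have hBD : B ≤ D := by
    rw [hD]
    push_cast
    linarith [Nat.le_ceil B]
  have hσ : ∀ g, ∀ s ∈ S, |(h ((rh H g)⁻¹ * rh H (g * s)) : ℝ)| ≤ D ∧
      b ((rh H g)⁻¹ * rh H (g * s)) ≤ D := by
    intro g s hs
    have h1 := hB (Set.mem_image_of_mem (fun σ => max (|(h σ : ℝ)|) (b σ)) (hinc g s hs))
    exact ⟨(le_max_left _ _).trans (h1.trans hBD), (le_max_right _ _).trans (h1.trans hBD)⟩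
  have hσH : ∀ g s, (rh H g)⁻¹ * rh H (g * s) ∈ H := fun g s =>
    H.mul_mem (H.inv_mem (rh_mem H g)) (rh_mem H _)
  have hdec : ∀ g s, rh H (g * s) = rh H g * ((rh H g)⁻¹ * rh H (g * s)) := fun g s => by group
  refine ⟨fun g => h (rh H g), fun g => b (rh H g), D, ?_, fun x hx => ?_, fun x hx => ?_⟩
  · refine ⟨hfin, hsym, hgen, hL.θ0, hL.θ1, ?_, ?_, ?_, ?_, ?_, hL.t_mem, ?_, ?_, ?_, ?_, ?_⟩
    · intro x hx g
      rw [rh_mul hx, hL.h_mul x hx _ (rh_mem H g), rh_of_mem hx]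
    · intro x hx g
      rw [rh_mul hx, rh_of_mem hx]
      exact hL.b_mul x hx _ (rh_mem H g)
    · intro g
      exact hL.b_nonneg _ (rh_mem H g)
    · rw [rh_of_mem H.one_mem]
      exact hL.b_one
    · intro x hx
      rw [rh_of_mem hx, rh_of_mem (H.inv_mem hx)]
      exact hL.b_inv x hx
    · rw [rh_of_mem hL.t_mem]
      exact hL.ht
    · rw [rh_of_mem hL.t_mem]
      exact hL.bt
    · rw [hD]
      omega
    · intro g s hs
      rw [hdec g s, hL.h_mul _ (rh_mem H g) _ (hσH g s)]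
      have h1 := (hσ g s hs).1
      rw [add_sub_cancel_left]
      exact_mod_cast h1
    · intro g s hs
      rw [hdec g s]
      refine (hL.b_mul _ (rh_mem H g) _ (hσH g s)).trans ?_
      have h1 := (hσ g s hs).2
      have h2 : (0 : ℝ) < θ ^ h (rh H g) := zpow_pos hL.θ0 _
      have h3 := mul_le_mul_of_nonneg_left h1 h2.le
      linarith
  · exact congrArg h (rh_of_mem hx)
  · exact congrArg b (rh_of_mem hx)

end Pool.Agent.W2helper46.FD
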