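import Pool.Agent.W2helper75.FD.Stm3
import Pool.Agent.W2helper82.FD.Nret

/-!
Project FD part 3 (helper75), piece ZO: a zero-one law.
-/

set_option autoImplicit false

open MeasureTheory ProbabilityTheory Filter Topology
open scoped ENNReal NNReal symmDiff

namespace Pool.Agent.W2helper46.FD

open Pool.Agent.W2helper75.FD Pool.Agent.W2helper19.FD Pool.Agent.W2helper82.FD

variable {S : Type} [Fintype S] [Nonempty S] [MeasurableSpace S] [DiscreteMeasurableSpace S]

/-- `C` depends on the first `k` coordinates only -/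
def Dep (k : ℕ) (C : Set (ℕ → S)) : Prop :=
  ∀ c c' : ℕ → S, (∀ i < k, c i = c' i) → (c ∈ C ↔ c' ∈ C)

/-- prepend the first `k` letters of `w` -/
def pre (k : ℕ) (w d : ℕ → S) : ℕ → S := fun i => if i < k then w i else d (i - k)

omit [Fintype S] [Nonempty S] [MeasurableSpace S] [DiscreteMeasurableSpace S] in
lemma cns_pre (s : S) (k : ℕ) (w d : ℕ → S) :
    cns (s, pre k w d) = pre (k + 1) (cns (s, w)) d := by
  funext i
  cases i with
  | zero => simp [pre]
  | succ i =>
    simp only [cns_succ, pre, Nat.add_lt_add_iff_right, Nat.add_sub_add_right]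

omit [Fintype S] [Nonempty S] [DiscreteMeasurableSpace S] in
lemma meas_sec {A : Set (ℕ → S)} (hA : MeasurableSet A) (s : S) :
    MeasurableSet {c | cns (s, c) ∈ A} :=
  measurable_prodMk_left (measurable_cns hA)

lemma key (k : ℕ) : ∀ (A C : Set (ℕ → S)), MeasurableSet A → MeasurableSet C → Dep k C →
    ∀ δ : ℝ≥0∞, (∀ (j : ℕ) (w : ℕ → S), δ ≤ mlaw S {d | pre j w d ∈ A}) →
    δ * mlaw S C ≤ mlaw S (A ∩ C) := by
  induction k with
  | zero =>
    intro A C hA _ hC δ hδ
    by_cases hne : C.Nonempty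
    · obtain ⟨c0, hc0⟩ := hne
      have hCu : C = Set.univ := Set.eq_univ_of_forall fun c =>
        (hC c0 c fun i hi => absurd hi (Nat.not_lt_zero i)).1 hc0
      rw [hCu, measure_univ, mul_one, Set.inter_univ]
      have h := hδ 0 c0
      have e : {d : ℕ → S | pre 0 c0 d ∈ A} = A := by
        ext d
        have : pre 0 c0 d = d := by
          funext i
          simp [pre]
        simp [this]
      rwa [e] at h
    · rw [Set.not_nonempty_iff_eq_empty.1 hne]
      simp
  | succ k ih =>
    intro A C hA hCm hC δ hδ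
    rw [split C hCm, split (A ∩ C) (hA.inter hCm)]
    have h1 : ∀ s : S, δ * mlaw S {c | cns (s, c) ∈ C} ≤ mlaw S {c | cns (s, c) ∈ A ∩ C} := by
      intro s
      have h2 := ih {c | cns (s, c) ∈ A} {c | cns (s, c) ∈ C} (meas_sec hA s) (meas_sec hCm s)
        ?_ δ ?_
      · exact h2
      · intro c c' hcc
        refine hC _ _ fun i hi => ?_
        cases i with
        | zero => rfl
        | succ i =>
          rw [cns_succ, cns_succ]
          exact hcc i (by omega)
      · intro j w
        have h3 := hδ (j + 1) (cns (s, w))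
        have e : {d : ℕ → S | pre j w d ∈ {c | cns (s, c) ∈ A}} =
            {d | pre (j + 1) (cns (s, w)) d ∈ A} := by
          ext d
          simp only [Set.mem_ofPred_eq]
          rw [cns_pre]
        rwa [e]
    calc δ * ((Fintype.card S : ℝ≥0∞)⁻¹ * ∑ s, mlaw S {c | cns (s, c) ∈ C})
        = (Fintype.card S : ℝ≥0∞)⁻¹ * ∑ s, δ * mlaw S {c | cns (s, c) ∈ C} := by
          rw [Finset.mul_sum, Finset.mul_sum, Finset.mul_sum]
          refine Finset.sum_congr rfl fun s _ => ?_
          ring
      _ ≤ _ := by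
          gcongr with s _
          exact h1 s

theorem p_zo : P_ZO := by
  intro S _ _ _ _ A hA δ hδ0 hδ
  have hδ' : ∀ (j : ℕ) (w : ℕ → S), δ ≤ mlaw S {d | pre j w d ∈ A} := hδ
  have hδ1 : δ ≤ 1 := by
    obtain ⟨s⟩ := ‹Nonempty S›
    exact (hδ 0 fun _ => s).trans prob_le_one
  rw [← prob_compl_eq_zero_iff hA]
  have hdense := Measure.MeasureDense.of_generateFrom_isSetAlgebra_finite (mlaw S)
    (isSetAlgebra_measurableCylinders (α := fun _ : ℕ => S)) generateFrom_measurableCylinders.symm
  have hε : ∀ ε : ℝ, 0 < ε → δ * mlaw S Aᶜ ≤ 2 * ENNReal.ofReal ε := by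
    intro ε hε
    obtain ⟨C, hC, hCA⟩ := hdense.approx Aᶜ hA.compl (measure_ne_top _ _) ε hε
    have hCm : MeasurableSet C := MeasurableSet.of_mem_measurableCylinders hC
    rw [measurableCylinders_nat] at hC
    simp only [Set.mem_iUnion, Set.mem_singleton_iff, exists_prop] at hC
    obtain ⟨a, T, -, hCT⟩ := hC
    have hdep : Dep (a + 1) C := by
      intro c c' hcc
      rw [hCT, mem_cylinder, mem_cylinder]
      have e : (Finset.Iic a).restrict c = (Finset.Iic a).restrict c' := by
        funext i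
        exact hcc i (Nat.lt_succ_of_le (Finset.mem_Iic.1 i.2))
      rw [e]
    have h1 := key (a + 1) A C hA hCm hdep δ hδ'
    have h2 : mlaw S (A ∩ C) ≤ ENNReal.ofReal ε := by
      refine (measure_mono ?_).trans hCA.le
      intro x hx
      exact Or.inr ⟨hx.2, fun h => h hx.1⟩
    have h3 : mlaw S Aᶜ ≤ mlaw S C + ENNReal.ofReal ε := by
      calc mlaw S Aᶜ ≤ mlaw S (C ∪ (Aᶜ ∆ C)) := by
            refine measure_mono fun x hx => ?_
            by_cases hxC : x ∈ C
            · exact Or.inl hxC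
            · exact Or.inr (Or.inl ⟨hx, hxC⟩)
        _ ≤ mlaw S C + mlaw S (Aᶜ ∆ C) := measure_union_le _ _
        _ ≤ mlaw S C + ENNReal.ofReal ε := by gcongr
    calc δ * mlaw S Aᶜ ≤ δ * (mlaw S C + ENNReal.ofReal ε) := by gcongr
      _ = δ * mlaw S C + δ * ENNReal.ofReal ε := mul_add _ _ _
      _ ≤ ENNReal.ofReal ε + 1 * ENNReal.ofReal ε := by
          gcongr
          exact h1.trans h2
      _ = 2 * ENNReal.ofReal ε := by ring
  have hz : δ * mlaw S Aᶜ = 0 := by
    by_contra hne
    set x := δ * mlaw S Aᶜ with hx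
    have hxt : x ≠ ⊤ := ENNReal.mul_ne_top (ne_top_of_le_ne_top ENNReal.one_ne_top hδ1)
      (measure_ne_top _ _)
    have hx0 : 0 < x.toReal := ENNReal.toReal_pos hne hxt
    have h4 := hε (x.toReal / 4) (by positivity)
    have h5 : x = ENNReal.ofReal x.toReal := (ENNReal.ofReal_toReal hxt).symm
    have h6 : 2 * ENNReal.ofReal (x.toReal / 4) = ENNReal.ofReal (x.toReal / 2) := by
      have e : (2 : ℝ≥0∞) = ENNReal.ofReal 2 := by simp
      rw [e, ← ENNReal.ofReal_mul (by norm_num)]
      congr 1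
      ring
    rw [h6] at h4
    rw [h5] at h4
    have h7 := (ENNReal.ofReal_le_ofReal_iff (by positivity)).1 h4
    rw [ENNReal.toReal_ofReal ENNReal.toReal_nonneg] at h7
    linarith
  rcases mul_eq_zero.1 hz with h | h
  · exact absurd h hδ0
  · exact h

end Pool.Agent.W2helper46.FD
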